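import Pool.Agent.H73.KG.Stmts2

/-!
# Project KG, module CHI: the chain of blocks, by induction on the number of blocks
-/

set_option autoImplicit false
set_option linter.unusedSectionVars false
set_option linter.unusedVariables false

open MeasureTheory Set Filter Topology
open scoped ContDiff

namespace Pool.Agent.H73.KG

open Pool.Agent.H84 Pool.Agent.H84.Sym Pool.Agent.H84.Sym.P2x Pool.Agent.H19.KL

section

variable {E : Type} [NormedAddCommGroup E] [InnerProductSpace ℝ E]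
    [FiniteDimensional ℝ E] [MeasurableSpace E] [BorelSpace E]

/-- the span of the vectors `v 0, ..., v (n - 1)` -/
def CHI_sp (n : ℕ) (v : ℕ → E) : Submodule ℝ E := Submodule.span ℝ (range fun i : Fin n => v i)

theorem CHI_orth {n : ℕ} {v : ℕ → E} {x : E} (h : ∀ i < n, inner ℝ x (v i) = (0:ℝ)) :
    x ∈ (CHI_sp n v)ᗮ := by
  rw [Submodule.mem_orthogonal']
  intro u hu
  unfold CHI_sp at hu
  induction hu using Submodule.span_induction with
  | mem y hy =>
    obtain ⟨i, rfl⟩ := hy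
    exact h i i.2
  | zero => exact inner_zero_right x
  | add y z _ _ hy hz => rw [inner_add_right, hy, hz, add_zero]
  | smul a y _ hy => rw [inner_smul_right, hy, mul_zero]

theorem CHI_on {n : ℕ} {v : ℕ → E}
    (h : ∀ i < n, ∀ j < n, inner ℝ (v i) (v j) = (if i = j then (1:ℝ) else 0)) :
    Orthonormal ℝ (fun i : Fin n => v i) := by
  rw [orthonormal_iff_ite]
  intro i j
  rw [h i i.2 j j.2]
  simp only [Fin.ext_iff]

theorem CHI_basis {n : ℕ} {v : ℕ → E}
    (h : ∀ i < n, ∀ j < n, inner ℝ (v i) (v j) = (if i = j then (1:ℝ) else 0)) :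
    ∃ c : OrthonormalBasis (Fin n) ℝ (CHI_sp n v), ∀ i : Fin n, ((c i : CHI_sp n v) : E) = v i := by
  have h1 := CHI_on h
  have h2 := h1.linearIndependent
  let b : Module.Basis (Fin n) ℝ (CHI_sp n v) := Module.Basis.span h2
  have h3 : ∀ i : Fin n, ((b i : CHI_sp n v) : E) = v i := fun i => by
    change ((Module.Basis.span h2 i : Submodule.span ℝ (range fun i : Fin n => v i)) : E) = v i
    rw [Module.Basis.span_apply]
  have h4 : Orthonormal ℝ b := by
    rw [orthonormal_iff_ite]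
    intro i j
    rw [Submodule.coe_inner, h3, h3, h i i.2 j j.2]
    simp only [Fin.ext_iff]
  refine ⟨b.toOrthonormalBasis h4, fun i => ?_⟩
  rw [Module.Basis.coe_toOrthonormalBasis, h3]

/-- the vectors `e j i` in the orthogonal complement -/
noncomputable def CHI_e (S : Submodule ℝ E) (e : ℕ → ℕ → E) (j i : ℕ) : Sᗮ := by
  classical
  exact if h : e j i ∈ Sᗮ then ⟨e j i, h⟩ else 0

theorem CHI_e_coe {S : Submodule ℝ E} {e : ℕ → ℕ → E} {j i : ℕ} (h : e j i ∈ Sᗮ) :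
    ((CHI_e S e j i : Sᗮ) : E) = e j i := by
  unfold CHI_e
  rw [dif_pos h]

end

theorem CHI_step (C0 : ℝ) (hC0 : 1 ≤ C0) (hK : KBD C0)
    (hMGL : ∀ (E : Type) [NormedAddCommGroup E] [InnerProductSpace ℝ E]
      [FiniteDimensional ℝ E] [MeasurableSpace E] [BorelSpace E], MGLStmt E)
    (hOSL : ∀ (E : Type) [NormedAddCommGroup E] [InnerProductSpace ℝ E]
      [FiniteDimensional ℝ E] [MeasurableSpace E] [BorelSpace E], OSLStmt E)
    (hTSP : ∀ (E : Type) [NormedAddCommGroup E] [InnerProductSpace ℝ E]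
      [FiniteDimensional ℝ E] [MeasurableSpace E] [BorelSpace E], TSPStmt E)
    (hMGA : ∀ (E : Type) [NormedAddCommGroup E] [InnerProductSpace ℝ E]
      [FiniteDimensional ℝ E] [MeasurableSpace E] [BorelSpace E], MGAStmt E)
    (hOS0 : ∀ (E : Type) [NormedAddCommGroup E] [InnerProductSpace ℝ E]
      [FiniteDimensional ℝ E] [MeasurableSpace E] [BorelSpace E], OS0Stmt E)
    {E : Type} [NormedAddCommGroup E] [InnerProductSpace ℝ E]
    [FiniteDimensional ℝ E] [MeasurableSpace E] [BorelSpace E] (U : E → ℝ) (t : ℝ)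
    (hU : BP U t) (ht : t ≤ 1) (hc5 : CovLe U 5) (n : ℕ) (v : ℕ → E) (m : ℕ → ℝ) (β : ℝ)
    (hv : ∀ i < n, ∀ j < n, inner ℝ (v i) (v j) = (if i = j then (1:ℝ) else 0))
    (hm : ∀ i < n, |m i| ≤ β) (hβ : 0 ≤ β) (g W : E → ℝ) (hg : OSI U g W) :
    ∃ g' W' : (CHI_sp n v)ᗮ → ℝ, OSI (mg (CHI_sp n v) U) g' W' ∧
      (∫ z, W' z ∂(mu (mg (CHI_sp n v) U)) ≤ (∫ x, W x ∂(mu U)) +
        C0 * β ^ 2 * (n + 4 * Module.finrank ℝ (CHI_sp n v)ᗮ / t ^ 7)) ∧
      ∀ θ : (CHI_sp n v)ᗮ, ‖θ‖ = 1 →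
        2 * cv U (li (θ : E)) g + 2 * ∑ i ∈ Finset.range n, m i * t3 U θ (v i) (v i) ≤
        2 * cv (mg (CHI_sp n v) U) (li θ) g' +
          9 * (β * Real.sqrt (Module.finrank ℝ (CHI_sp n v)ᗮ) / t ^ 2) := by
  have hcc := CHI_basis hv
  set S := CHI_sp n v with hS
  obtain ⟨c, hc⟩ := hcc
  have ht0 : 0 < t := by
    obtain ⟨⟨C, h⟩, _⟩ := hU.1
    exact h.pos
  set mm : Fin n → ℝ := fun i => m i with hmm
  have hmm' : ∀ i, |mm i| ≤ β := fun i => hm i i.2
  obtain ⟨hMG1, hMG2, hMG3, hMG4, hMG5, hMG6⟩ := hMGL E U t hU S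
  obtain ⟨hA1, ⟨B, hB1, hB2, hB3⟩, hA3⟩ := hMGA E U t hU ht hc5 S (Fin n) c
  have hg1 := hg
  obtain ⟨hg2, hW1, ⟨BW, hW2⟩, hg3⟩ := hg1
  -- the functions
  set K2 : Sᗮ → ℝ := fun z => C0 * β ^ 2 *
    ((Fintype.card (Fin n) : ℝ) + (∑ i, ∑ j, (cm c (fb S U z) i j - B i j) ^ 2) / t ^ 4) with hK2
  have hK2c : Continuous K2 := by
    refine continuous_const.mul (continuous_const.add (Continuous.div_const ?_ _))
    exact continuous_finsetSum _ fun i _ => continuous_finsetSum _ fun j _ =>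
      ((hA1 i j).1.sub continuous_const).pow 2
  have hsq : ∀ (z : Sᗮ) (i j : Fin n), (cm c (fb S U z) i j - B i j) ^ 2 ≤ (1 / t + |B i j|) ^ 2 := by
    intro z i j
    apply sq_le_sq'
    · have h1 := (abs_le.1 ((hA1 i j).2 z)).1
      have h2 := le_abs_self (B i j)
      linarith
    · have h1 := (abs_le.1 ((hA1 i j).2 z)).2
      have h2 := neg_abs_le (B i j)
      linarith
  have hK2n : ∀ z, 0 ≤ K2 z := fun z => by
    rw [hK2]
    have : 0 ≤ ∑ i, ∑ j, (cm c (fb S U z) i j - B i j) ^ 2 :=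
      Finset.sum_nonneg fun i _ => Finset.sum_nonneg fun j _ => sq_nonneg _
    beta_reduce
    positivity
  have hK2b : ∀ z, |K2 z| ≤ C0 * β ^ 2 *
      ((Fintype.card (Fin n) : ℝ) + (∑ i, ∑ j, (1 / t + |B i j|) ^ 2) / t ^ 4) := by
    intro z
    rw [abs_of_nonneg (hK2n z)]
    rw [hK2]
    beta_reduce
    apply mul_le_mul_of_nonneg_left _ (by positivity)
    apply add_le_add le_rfl
    apply div_le_div_of_nonneg_right _ (by positivity)
    exact Finset.sum_le_sum fun i _ => Finset.sum_le_sum fun j _ => hsq z i j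
  have hHH : ∀ (z : Sᗮ) (φ : S → ℝ), Tst φ → HH c mm (fb S U z) φ ≤ K2 z := by
    intro z φ hφ
    exact hK S (fb S U z) t (hMG2 z) ht (Fin n) c B hB1 hB2 mm β hmm' φ hφ
  have hO := hOSL E U t hU S (Fin n) c mm g W K2 hg hK2c ⟨_, hK2b⟩ hHH
  set H : Sᗮ → ℝ := fun z => ∑ i, mm i * cv (fb S U z) (li (c i)) (li (c i)) with hH
  set g' : Sᗮ → ℝ := fun z => cav S U g z + ∑ i, mm i * cv (fb S U z) (li (c i)) (li (c i))
    with hg'
  set W' : Sᗮ → ℝ := fun z => cav S U W z + K2 z with hW'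
  have hHg : GC H := by
    apply GC.sum
    intro i
    refine GC.mul (GC.const _) ?_
    refine ⟨(hA1 i i).1, Gr.of_bdd (A := 1 / t) fun z => (hA1 i i).2 z⟩
  have hgg : GC g' := (hOS0 Sᗮ (mg S U) t hMG1 g' W' hO 0).1
  have hcg : GC (cav S U g) := by
    have h := hgg.sub hHg
    have e : (fun z => g' z - H z) = cav S U g := by
      funext z
      rw [hg', hH]
      ring
    rwa [e] at h
  have hgGC : GC g := (hOS0 E U t hU g W hg 0).1
  refine ⟨g', W', hO, ?_, ?_⟩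
  · -- integral of W'
    have hWG : GC W := ⟨hW1, Gr.of_bdd hW2⟩
    obtain ⟨hi1, hi2, hi3⟩ := hMG4 W hWG
    obtain ⟨⟨C', hP⟩, hprob⟩ := hMG1.1
    have hKG : GC K2 := ⟨hK2c, Gr.of_bdd hK2b⟩
    have hi4 : Integrable K2 (mu (mg S U)) := hKG.integrable hP
    have e1 : ∫ z, W' z ∂(mu (mg S U)) = (∫ x, W x ∂(mu U)) + ∫ z, K2 z ∂(mu (mg S U)) := by
      rw [hW', integral_add hi2 hi4, hi1]
    rw [e1]
    apply add_le_add le_rfl
    have hQG : GC (fun z => ∑ i, ∑ j, (cm c (fb S U z) i j - B i j) ^ 2) := by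
      apply GC.sum
      intro i
      apply GC.sum
      intro j
      apply GC.sq
      refine GC.sub ⟨(hA1 i j).1, Gr.of_bdd (hA1 i j).2⟩ (GC.const _)
    have hi5 := hQG.integrable hP
    have e2 : ∫ z, K2 z ∂(mu (mg S U)) = C0 * β ^ 2 * ((n:ℝ) +
        (∫ z, (∑ i, ∑ j, (cm c (fb S U z) i j - B i j) ^ 2) ∂(mu (mg S U))) / t ^ 4) := by
      rw [hK2, integral_const_mul, integral_add (integrable_const _) (hi5.div_const _),
        integral_div]
      simp
    rw [e2]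
    apply mul_le_mul_of_nonneg_left _ (by positivity)
    apply add_le_add le_rfl
    calc (∫ z, (∑ i, ∑ j, (cm c (fb S U z) i j - B i j) ^ 2) ∂(mu (mg S U))) / t ^ 4
        ≤ (4 * Module.finrank ℝ Sᗮ / t ^ 3) / t ^ 4 :=
          div_le_div_of_nonneg_right hB3 (by positivity)
      _ = 4 * Module.finrank ℝ Sᗮ / t ^ 7 := by
        rw [div_div, ← pow_add]
  · intro θ hθ
    obtain ⟨hT1, hT2, hT3⟩ := hTSP E U t hU S (Fin n) c mm θ
    have hT4 := hA3 mm β hmm' hβ θ hθ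
    have e1 : ∑ i ∈ Finset.range n, m i * t3 U θ (v i) (v i) = ∑ i, mm i * t3 U θ (c i) (c i) := by
      rw [Finset.sum_range]
      refine Finset.sum_congr rfl fun i _ => ?_
      rw [hc i]
    have e2 : cv (mg S U) (li θ) g' = cv (mg S U) (li θ) (cav S U g) + cv (mg S U) (li θ) H :=
      hT2 _ _ hcg hHg
    have h5 : Real.sqrt 5 ≤ 9 / 4 := by
      rw [Real.sqrt_le_left (by norm_num)]
      norm_num
    have h6 := (le_abs_self _).trans hT4
    have h7 : 2 * Real.sqrt 5 * Real.sqrt (Module.finrank ℝ Sᗮ) * β / t ^ 2 ≤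
        9 / 2 * (β * Real.sqrt (Module.finrank ℝ Sᗮ) / t ^ 2) := by
      have h8 : 0 ≤ β * Real.sqrt (Module.finrank ℝ Sᗮ) / t ^ 2 := by positivity
      have e3 : 2 * Real.sqrt 5 * Real.sqrt (Module.finrank ℝ Sᗮ) * β / t ^ 2 =
        2 * Real.sqrt 5 * (β * Real.sqrt (Module.finrank ℝ Sᗮ) / t ^ 2) := by ring
      rw [e3]
      apply mul_le_mul_of_nonneg_right _ h8
      linarith
    rw [e1, hT3, hT1 g hgGC, e2]
    linarith

theorem chi_thm (hKFB : KFBStmt)
    (hMGL : ∀ (E : Type) [NormedAddCommGroup E] [InnerProductSpace ℝ E]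
      [FiniteDimensional ℝ E] [MeasurableSpace E] [BorelSpace E], MGLStmt E)
    (hOSL : ∀ (E : Type) [NormedAddCommGroup E] [InnerProductSpace ℝ E]
      [FiniteDimensional ℝ E] [MeasurableSpace E] [BorelSpace E], OSLStmt E)
    (hTSP : ∀ (E : Type) [NormedAddCommGroup E] [InnerProductSpace ℝ E]
      [FiniteDimensional ℝ E] [MeasurableSpace E] [BorelSpace E], TSPStmt E)
    (hMGA : ∀ (E : Type) [NormedAddCommGroup E] [InnerProductSpace ℝ E]
      [FiniteDimensional ℝ E] [MeasurableSpace E] [BorelSpace E], MGAStmt E)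
    (hOS0 : ∀ (E : Type) [NormedAddCommGroup E] [InnerProductSpace ℝ E]
      [FiniteDimensional ℝ E] [MeasurableSpace E] [BorelSpace E], OS0Stmt E) : CHIStmt := by
  obtain ⟨C0, hC0, hK⟩ := hKFB
  refine ⟨5 * C0 + 9, by linarith, ?_⟩
  intro r
  induction r with
  | zero =>
    intro E _ _ _ _ _ U t hU ht hc5 θ d e m β Dd hB hfr g W hg
    have h := (hOS0 E U t hU g W hg θ).2
    simp only [Finset.range_zero, Finset.sum_empty, mul_zero, add_zero]
    exact h
  | succ r ih =>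
    intro E _ _ _ _ _ U t hU ht hc5 θ d e m β Dd hB hfr g W hg
    have ht0 : 0 < t := by
      obtain ⟨⟨C, h⟩, _⟩ := hU.1
      exact h.pos
    have hr := Nat.lt_succ_self r
    have hv : ∀ i < d r, ∀ j < d r, inner ℝ (e r i) (e r j) = (if i = j then (1:ℝ) else 0) := by
      intro i hi j hj
      rw [hB.orth r hr i hi r hr j hj]
      simp
    have hst := CHI_step C0 hC0 hK hMGL hOSL hTSP hMGA hOS0 U t hU ht hc5 (d r)
      (e r) (m r) (β r) hv (hB.coef r hr) (hB.nonneg r hr) g W hg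
    have hcc := CHI_basis hv
    set S := CHI_sp (d r) (e r) with hS
    obtain ⟨g', W', hO, hI, hT⟩ := hst
    obtain ⟨hMG1, hMG2, hMG3, hMG4, hMG5, hMG6⟩ := hMGL E U t hU S
    obtain ⟨c, hc⟩ := hcc
    have hθ : θ ∈ Sᗮ := CHI_orth fun i hi => hB.perp r hr i hi
    have he : ∀ j < r, ∀ i < d j, e j i ∈ Sᗮ := by
      intro j hj i hi
      apply CHI_orth
      intro i' hi'
      rw [hB.orth j (hj.trans hr) i hi r hr i' hi', if_neg]
      intro h
      exact hj.ne h.1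
    have hfS : Module.finrank ℝ S = d r := by
      rw [Module.finrank_eq_card_basis c.toBasis, Fintype.card_fin]
    have hfo : Module.finrank ℝ Sᗮ ≤ 1 + ∑ j ∈ Finset.range r, d j := by
      have h1 := Submodule.finrank_add_finrank_orthogonal S
      rw [Finset.sum_range_succ] at hfr
      omega
    have hB' : Blk t r (⟨θ, hθ⟩ : Sᗮ) d (CHI_e S e) m β Dd := by
      refine ⟨?_, ?_, ?_, ?_, ?_, ?_, ?_⟩
      · rw [Submodule.coe_norm]
        exact hB.unit
      · intro j hj i hi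
        rw [Submodule.coe_inner, CHI_e_coe (he j hj i hi)]
        exact hB.perp j (hj.trans hr) i hi
      · intro j hj i hi j' hj' i' hi'
        rw [Submodule.coe_inner, CHI_e_coe (he j hj i hi), CHI_e_coe (he j' hj' i' hi')]
        exact hB.orth j (hj.trans hr) i hi j' (hj'.trans hr) i' hi'
      · exact fun j hj => hB.coef j (hj.trans hr)
      · exact fun j hj => hB.nonneg j (hj.trans hr)
      · exact fun j hj => hB.size j (hj.trans hr)
      · exact fun j hj => hB.big j (hj.trans hr)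
    have h1 := ih Sᗮ (mg S U) t hMG1 ht (hMG6 5 hc5) ⟨θ, hθ⟩ d (CHI_e S e) m β Dd hB' hfo g' W' hO
    have hθ1 : ‖(⟨θ, hθ⟩ : Sᗮ)‖ = 1 := hB'.unit
    have h2 := hT ⟨θ, hθ⟩ hθ1
    have e3 : ∑ j ∈ Finset.range r, ∑ i ∈ Finset.range (d j),
        m j i * t3 (mg S U) ⟨θ, hθ⟩ (CHI_e S e j i) (CHI_e S e j i) =
        ∑ j ∈ Finset.range r, ∑ i ∈ Finset.range (d j), m j i * t3 U θ (e j i) (e j i) := by
      refine Finset.sum_congr rfl fun j hj => Finset.sum_congr rfl fun i hi => ?_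
      rw [(hMG5 _ _ _).1, CHI_e_coe (he j (Finset.mem_range.1 hj) i (Finset.mem_range.1 hi))]
    have e4 : cv (mg S U) (li (⟨θ, hθ⟩ : Sᗮ)) (li (⟨θ, hθ⟩ : Sᗮ)) = cv U (li θ) (li θ) :=
      (hMG5 ⟨θ, hθ⟩ ⟨θ, hθ⟩ ⟨θ, hθ⟩).2.1
    rw [e3, e4] at h1
    -- numerical part
    have h3 : (Module.finrank ℝ Sᗮ : ℝ) ≤ 1 + ∑ i ∈ Finset.range r, (d i : ℝ) := by
      exact_mod_cast hfo
    have h4 := hB.big r hr
    have h5 := hB.size r hr
    have h6 := hB.nonneg r hr
    have h7 : (d r : ℝ) + 4 * Module.finrank ℝ Sᗮ / t ^ 7 ≤ 5 * Dd r := by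
      have h8 : 4 * (Module.finrank ℝ Sᗮ : ℝ) / t ^ 7 ≤ 4 * Dd r := by
        rw [div_le_iff₀ (by positivity)]
        linarith
      linarith
    have h9 : C0 * β r ^ 2 * ((d r : ℝ) + 4 * Module.finrank ℝ Sᗮ / t ^ 7) ≤
        C0 * β r ^ 2 * (5 * Dd r) := mul_le_mul_of_nonneg_left h7 (by positivity)
    have h10 : 0 ≤ β r ^ 2 * Dd r := by
      have : 0 ≤ Dd r := le_trans (Nat.cast_nonneg _) h5
      positivity
    have h11 : β r * Real.sqrt (Module.finrank ℝ Sᗮ) / t ^ 2 ≤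
        β r * Real.sqrt (1 + ∑ i ∈ Finset.range r, (d i : ℝ)) / t ^ 2 := by
      apply div_le_div_of_nonneg_right _ (by positivity)
      exact mul_le_mul_of_nonneg_left (Real.sqrt_le_sqrt h3) h6
    have h12 : 0 ≤ β r * Real.sqrt (1 + ∑ i ∈ Finset.range r, (d i : ℝ)) / t ^ 2 := by
      positivity
    simp only [Finset.sum_range_succ]
    have h13 : 0 ≤ C0 * (β r * Real.sqrt (1 + ∑ i ∈ Finset.range r, (d i : ℝ)) / t ^ 2) := by
      positivity
    have e14 : ((⟨θ, hθ⟩ : Sᗮ) : E) = θ := rfl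
    rw [e14] at h2
    nlinarith [h1, h2, hI, h9, h10, h11, h12, h13]

end Pool.Agent.H73.KG
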